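import Pool.Agent.H528.MCG.Erg

set_option autoImplicit false

open MeasureTheory

namespace Pool.Agent.Results.MP_3dc428_gt.WanderingNull

open Pool.Agent.H528.MCG

/-- For every `t > 2` and every group `M` of automorphisms of `π` containing the Dehn twists (such
as `Aut(π)` itself): the translates of the four pieces of `{|y| < √(t+2)}` are pairwise disjoint
wandering domains of `V_t`, the complement of their union has area zero, and the action on `V_t`
is not ergodic. -/
theorem result : ∀ t : ℝ, 2 < t → ∀ M : Subgroup (MulAut PiT), ModPlus ≤ M →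
    (Translates M t).Nonempty ∧
    (∀ U ∈ Translates M t, IsWanderingDomain M t U) ∧
    (Translates M t).PairwiseDisjoint id ∧
    Measure.hausdorffMeasure 2 (V t \ ⋃₀ Translates M t) = 0 ∧
    ¬ IsErgodic M (V t) := by
  intro t ht M h1
  have hk : (Real.sqrt (t+2))^2 = t + 2 := Real.sq_sqrt (by linarith)
  have hk2 : 2 < Real.sqrt (t+2) := by
    rw [Real.lt_sqrt (by norm_num)]; linarith
  refine ⟨?_, fun U hU => Translates_wandering hk2 hk hU, Translates_disjoint hk2 hk,
    complement_null hk2 hk h1, not_ergodic hk2 hk⟩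
  obtain ⟨g, hg, _⟩ := act_of_Rl Rl_one h1
  exact ⟨g '' W t 1 1, g, hg, 1, 1, Or.inl rfl, Or.inl rfl, rfl⟩

end Pool.Agent.Results.MP_3dc428_gt.WanderingNull
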